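import Pool.Agent.H84.QQ.Stm2
import Pool.Agent.H84.FM.Gap

/-! Project QQ: the count of the pairs with a generic first invariant. (Adapted from `Pool.Agent.H84.FM.Gap`.) -/

set_option autoImplicit false
set_option linter.all false

namespace Pool.Agent.H23.QQ

open NumberField Pool.Agent.K4H56 Pool.Agent.K4H56.JD Pool.Agent.K4H56.IF Pool.Agent.Y673.FM
  Pool.Agent.K4H56.HG Pool.Agent.H84.QQ

theorem ht_sq {q r : ℚ} {X : ℕ} (h0 : q ≠ 0) (h : q ^ 2 = 1728 * r) (hX : Ht q ≤ X) :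
    Ht r ≤ 1728 * X ^ 2 := by
  have hm : q.num ≠ 0 := Rat.num_ne_zero.2 h0
  have h1 : q.num.natAbs ≤ X := (le_max_left _ _).trans hX
  have h2 : q.den ≤ X := (le_max_right _ _).trans hX
  have hr : r = Rat.divInt (q.num ^ 2) (1728 * (q.den : ℤ) ^ 2) := by
    have e : r = q ^ 2 / 1728 := by rw [h]; ring
    rw [e, Rat.divInt_eq_div]
    push_cast
    conv_lhs => rw [← Rat.num_div_den q]
    rw [div_pow, div_div, mul_comm (1728 : ℚ)]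
  have hd0 : (1728 * (q.den : ℤ) ^ 2) ≠ 0 := by
    have := q.den_ne_zero
    positivity
  have hn : r.num ∣ q.num ^ 2 := by
    rw [hr]
    exact Rat.num_dvd _ hd0
  have hd : (r.den : ℤ) ∣ 1728 * (q.den : ℤ) ^ 2 := by
    rw [hr]
    exact Rat.den_dvd _ _
  have h3 : r.num.natAbs ≤ q.num.natAbs ^ 2 := by
    have h4 := Int.natAbs_dvd_natAbs.2 hn
    rw [Int.natAbs_pow] at h4
    exact Nat.le_of_dvd (by positivity) h4
  have h5 : r.den ≤ 1728 * q.den ^ 2 := by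
    have h6 : r.den ∣ 1728 * q.den ^ 2 := by exact_mod_cast hd
    exact Nat.le_of_dvd (by have := q.den_pos; positivity) h6
  refine max_le ?_ ?_
  · calc r.num.natAbs ≤ q.num.natAbs ^ 2 := h3
      _ ≤ X ^ 2 := Nat.pow_le_pow_left h1 2
      _ ≤ 1728 * X ^ 2 := by omega
  · calc r.den ≤ 1728 * q.den ^ 2 := h5
      _ ≤ 1728 * X ^ 2 := Nat.mul_le_mul_left _ (Nat.pow_le_pow_left h2 2)

/-- the special pairs -/
theorem card_sp {D k X Y Z : ℕ} {E T : ℝ} (hU : Un Z E) (hk : 1 ≤ k) (hX : 1 ≤ X) (hXY : X ≤ Y)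
    (hYZ : 1729 * Y ≤ Z) (hLZ : 6 * (144 * D + 1 + Nat.log 2 Y) ≤ Z) (hT : 1 ≤ T)
    (F : Finset (ℚ × ℚ)) (hF : ∀ x ∈ F, x ∈ PS D k X Y ∧ x.1 ≠ 0 ∧ x.1 ≠ 1728 ∧ x.2 ≠ 0 ∧
      x.2 ≠ 1728 ∧ (X : ℝ) ^ 3 < T ^ 12 * Nj x.1) (hsp : ∀ x ∈ F, x.1 ^ 2 = 1728 * x.2) :
    (F.card : ℝ) ≤ ((144 * D + 1 + Nat.log 2 Y : ℕ) * ((Nat.log 2 Z + 1 : ℕ) : ℝ) ^ 5) *
      (8 * E ^ 6 * (3458 * T ^ 12 * (144 * D + 1 + Nat.log 2 Y : ℕ)) ^ 6 *
        ((X : ℝ) * (((1728 * X ^ 2 : ℕ) : ℝ) / X) ^ (1 / 2 + 1 / (k : ℝ)))) := by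
  have hE := hU.one
  set Y' := min Y (1728 * X ^ 2) with hY'
  have hX2 : X ≤ 1728 * X ^ 2 := by nlinarith
  have hlog : Nat.log 2 Y' ≤ Nat.log 2 Y := Nat.log_mono_right (min_le_left _ _)
  have g := Pool.Agent.H84.FM.card_gap (D := D) (k := k) (X := X) (Y := Y') (Z := Z) (T := T) hU hk hX
    (le_min hXY hX2) ((Nat.mul_le_mul_left _ (min_le_left _ _)).trans hYZ) (by omega) hT F
    (by
      intro x hx
      obtain ⟨⟨a1, a2, a3, a4⟩, b1, b2⟩ := hF x hx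
      exact ⟨⟨a1, a2, le_min a3 (ht_sq b1 (hsp x hx) a2), a4⟩, b1, b2⟩)
  refine g.trans ?_
  have hX0 : (0 : ℝ) < X := by exact_mod_cast hX
  have e1 : ((144 * D + 1 + Nat.log 2 Y' : ℕ) : ℝ) ≤ ((144 * D + 1 + Nat.log 2 Y : ℕ) : ℝ) := by
    exact_mod_cast (by omega : 144 * D + 1 + Nat.log 2 Y' ≤ 144 * D + 1 + Nat.log 2 Y)
  have e2 : (Y' : ℝ) ≤ ((1728 * X ^ 2 : ℕ) : ℝ) := by
    exact_mod_cast (min_le_right Y (1728 * X ^ 2))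
  have hE0 : 0 < E := by linarith
  gcongr

/-- the indices of the refined boxes -/
def JJ (Λ n : ℕ) : Finset ((ℕ × ℕ × ℕ × ℕ × ℕ × ℕ) × (ℕ × ℕ × ℕ × ℕ)) :=
  II Λ n ×ˢ (Finset.range (n + 1) ×ˢ (Finset.range (n + 1) ×ˢ (Finset.range (n + 1) ×ˢ
    Finset.range (n + 1))))

theorem card_JJ (Λ n : ℕ) : (JJ Λ n).card = Λ * ((n + 1) ^ 9) := by
  unfold JJ
  rw [Finset.card_product, Finset.card_product, Finset.card_product, Finset.card_product,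
    card_II, Finset.card_range]
  ring

theorem B_ne {L : ℕ} {x : ℚ × ℚ} : (toD L 1 x).B₀ ≠ 0 ∧ (toD L 1 x).B₁ ≠ 0 ∧
    (toD L 1 x).B₂ ≠ 0 ∧ (toD L 1 x).B₃ ≠ 0 := by
  have h := toD_B (L := L) (α := 1) (x := x)
  have h1 := BB_ne x.1
  rw [← h] at h1
  unfold Pool.Agent.H84.QQ.Dat.B at h1
  refine ⟨?_, ?_, ?_, ?_⟩ <;> (intro h0; apply h1; rw [h0]; ring)

theorem B_le {L : ℕ} {x : ℚ × ℚ} : (toD L 1 x).B₀ ≤ BB x.1 ∧ (toD L 1 x).B₁ ≤ BB x.1 ∧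
    (toD L 1 x).B₂ ≤ BB x.1 ∧ (toD L 1 x).B₃ ≤ BB x.1 := by
  have h := toD_B (L := L) (α := 1) (x := x)
  have h1 := Nat.pos_of_ne_zero (BB_ne x.1)
  unfold Pool.Agent.H84.QQ.Dat.B at h
  refine ⟨Nat.le_of_dvd h1 ?_, Nat.le_of_dvd h1 ?_, Nat.le_of_dvd h1 ?_, Nat.le_of_dvd h1 ?_⟩
  · rw [← h]
    exact Dvd.intro ((toD L 1 x).B₁ * (toD L 1 x).B₂ * (toD L 1 x).B₃) (by ring)
  · rw [← h]
    exact Dvd.intro ((toD L 1 x).B₀ * (toD L 1 x).B₂ * (toD L 1 x).B₃) (by ring)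
  · rw [← h]
    exact Dvd.intro ((toD L 1 x).B₀ * (toD L 1 x).B₁ * (toD L 1 x).B₃) (by ring)
  · rw [← h]
    exact Dvd.intro ((toD L 1 x).B₀ * (toD L 1 x).B₁ * (toD L 1 x).B₂) (by ring)

theorem qcnt (hBOX : S_QBOX) : S_QCNT := by
  classical
  obtain ⟨K, hK, hbox⟩ := hBOX
  refine ⟨K, hK, ?_⟩
  intro D k X Y Z E T hU hk hX hXY hYZ hXZ hLZ hT hbig F hF
  have hE := hU.one
  have hE0 : 0 < E := by linarith
  have hsplit := Finset.card_filter_add_card_filter_not (s := F) (fun x => x.1 ^ 2 = 1728 * x.2)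
  have hsp := card_sp (D := D) hU (by omega : 1 ≤ k) hX hXY hYZ hLZ hT
    (F.filter (fun x => x.1 ^ 2 = 1728 * x.2))
    (fun x hx => hF x (Finset.mem_filter.1 hx).1) (fun x hx => (Finset.mem_filter.1 hx).2)
  set G := F.filter (fun x => ¬ x.1 ^ 2 = 1728 * x.2) with hG
  have hcard : (F.card : ℝ) = G.card + (F.filter (fun x => x.1 ^ 2 = 1728 * x.2)).card := by
    rw [← hsplit]
    push_cast
    ring
  rw [hcard]
  refine add_le_add ?_ hsp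
  clear hsplit hsp hcard
  set Λ := 144 * D + 1 + Nat.log 2 Y with hΛ
  have hGF : ∀ x ∈ G, x ∈ PS D k X Y ∧ x.1 ≠ 0 ∧ x.1 ≠ 1728 ∧ x.2 ≠ 0 ∧
      x.2 ≠ 1728 ∧ (X : ℝ) ^ 3 < T ^ 12 * Nj x.1 := fun x hx => hF x (Finset.mem_filter.1 hx).1
  have hGs : ∀ x ∈ G, x.1 ^ 2 ≠ 1728 * x.2 := fun x hx => (Finset.mem_filter.1 hx).2
  set Q : (ℕ × ℕ × ℕ × ℕ × ℕ × ℕ) × (ℕ × ℕ × ℕ × ℕ) → ℚ × ℚ → Prop := fun i x => PBi k X Y i.1 x ∧
    Nj x.1 ≤ i.1.1 * (AA x.1 (6 * i.1.1) * BB x.1 * CC x.1 (6 * i.1.1)) ∧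
    (2 ^ i.2.1 ≤ (toD (6 * i.1.1) 1 x).B₀ ∧ (toD (6 * i.1.1) 1 x).B₀ < 2 * 2 ^ i.2.1) ∧
    (2 ^ i.2.2.1 ≤ (toD (6 * i.1.1) 1 x).B₁ ∧ (toD (6 * i.1.1) 1 x).B₁ < 2 * 2 ^ i.2.2.1) ∧
    (2 ^ i.2.2.2.1 ≤ (toD (6 * i.1.1) 1 x).B₂ ∧ (toD (6 * i.1.1) 1 x).B₂ < 2 * 2 ^ i.2.2.2.1) ∧
    (2 ^ i.2.2.2.2 ≤ (toD (6 * i.1.1) 1 x).B₃ ∧ (toD (6 * i.1.1) 1 x).B₃ < 2 * 2 ^ i.2.2.2.2) with hQ
  have h1 : G ⊆ (JJ Λ (Nat.log 2 Z)).biUnion (fun i => G.filter (Q i)) := by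
    intro x hx
    obtain ⟨⟨hne, ht, ht₀, K, _, _, p, A, B, A₀, B₀, hD, h6, hkp, hP⟩, g1, g2, g3, g4, g5⟩ :=
      hGF x hx
    obtain ⟨hl1, hl2⟩ := lx_le hP hD (ht.trans hXY) ht₀
    obtain ⟨i₁, i₂, i₃, i₄, i₅, ⟨b1, b2, b3, b4, b5⟩, hB⟩ := inbox hP h6 g1 g2 g3 g4 hne rfl
      (by omega : 1 ≤ k) hkp ht ht₀ (by omega : 1729 * X ≤ Z)
    set l := lx (Module.finrank ℚ K) p x.1 x.2 with hl
    obtain ⟨n0, n1, n2, n3⟩ := B_ne (L := 6 * l) (x := x)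
    obtain ⟨m0, m1, m2, m3⟩ := B_le (L := 6 * l) (x := x)
    have hBX : BB x.1 ≤ Z :=
      (Nat.le_of_dvd x.1.den_pos (BB_dvd x.1)).trans ((le_max_right _ _).trans (ht.trans (by omega)))
    refine Finset.mem_biUnion.2 ⟨((l, i₁, i₂, i₃, i₄, i₅),
      (Nat.log 2 (toD (6 * l) 1 x).B₀, Nat.log 2 (toD (6 * l) 1 x).B₁,
        Nat.log 2 (toD (6 * l) 1 x).B₂, Nat.log 2 (toD (6 * l) 1 x).B₃)), ?_,
      Finset.mem_filter.2 ⟨hx, hB, N_le hP.hp g1 g2, two_log n0, two_log n1, two_log n2,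
        two_log n3⟩⟩
    have q0 := Nat.log_mono_right (b := 2) (m0.trans hBX)
    have q1 := Nat.log_mono_right (b := 2) (m1.trans hBX)
    have q2 := Nat.log_mono_right (b := 2) (m2.trans hBX)
    have q3 := Nat.log_mono_right (b := 2) (m3.trans hBX)
    unfold JJ II
    simp only [Finset.mem_product, Finset.mem_Icc, Finset.mem_range]
    omega
  have hT12 : 1 ≤ T ^ 12 := one_le_pow₀ hT
  have hΛ1 : (1 : ℝ) ≤ Λ := by exact_mod_cast (by omega : 1 ≤ Λ)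
  set M : ℝ := 3458 * T ^ 12 * Λ with hM
  have hTΛ : 1 ≤ T ^ 12 * Λ := by nlinarith
  have hM1 : 1 ≤ M := by
    rw [hM]
    nlinarith
  refine (card_bU G _ _ h1 (t := K * E ^ 12 * M ^ 4 *
        ((X : ℝ) * ((Y : ℝ) / X) ^ (7 / 15 : ℝ))) fun i hi => ?_).trans
    (le_of_eq ?_)
  · set S := G.filter (Q i) with hS
    rcases S.eq_empty_or_nonempty with h0 | ⟨x, hx⟩
    · rw [h0, Finset.card_empty, Nat.cast_zero]
      positivity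
    unfold JJ II at hi
    simp only [Finset.mem_product, Finset.mem_Icc, Finset.mem_range] at hi
    obtain ⟨hxF, hxB, hxN, -⟩ := Finset.mem_filter.1 hx
    obtain ⟨-, g1, g2, g3, g4, g5⟩ := hGF x hxF
    have hB := hxB
    unfold PBi at hB
    have hj := hB.j
    obtain ⟨a1, a2⟩ := hj.ha
    obtain ⟨b1, b2⟩ := hj.hb
    obtain ⟨c1, c2⟩ := hj.hc
    set L := 6 * i.1.1 with hL
    set a := 2 ^ i.1.2.1 with had
    set b := 2 ^ i.1.2.2.1 with hbd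
    set c := 2 ^ i.1.2.2.2.1 with hcd
    have ha : 1 ≤ a := Nat.one_le_two_pow
    have hb : 1 ≤ b := Nat.one_le_two_pow
    have hc : 1 ≤ c := Nat.one_le_two_pow
    have hX0 : (0 : ℝ) < X := by exact_mod_cast hX
    have hAX : AA x.1 L ≤ X := by
      have h3 := Nat.le_of_dvd (Int.natAbs_pos.2 (Rat.num_ne_zero.2 g1)) (AA_dvd x.1 L)
      exact h3.trans ((le_max_left _ _).trans hj.ht)
    have hBX : BB x.1 ≤ X :=
      (Nat.le_of_dvd x.1.den_pos (BB_dvd x.1)).trans ((le_max_right _ _).trans hj.ht)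
    have hCX : CC x.1 L ≤ 1729 * X := by
      have h3 := Nat.le_of_dvd (Nat.pos_of_ne_zero (cc_ne g2)) (CC_dvd x.1 L)
      exact h3.trans (abs_cc hj.ht)
    have hN : (X : ℝ) ^ 3 < T ^ 12 * (Λ * ((AA x.1 L : ℝ) * BB x.1 * CC x.1 L)) := by
      refine g5.trans_le (mul_le_mul_of_nonneg_left ?_ (by positivity))
      calc (Nj x.1 : ℝ) ≤ ((i.1.1 * (AA x.1 L * BB x.1 * CC x.1 L) : ℕ) : ℝ) := by
            exact_mod_cast hxN
        _ ≤ ((Λ * (AA x.1 L * BB x.1 * CC x.1 L) : ℕ) : ℝ) := by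
            exact_mod_cast Nat.mul_le_mul_right _ hi.1.1.2
        _ = _ := by push_cast; ring
    have hAr : (AA x.1 L : ℝ) ≤ X := by exact_mod_cast hAX
    have hBr : (BB x.1 : ℝ) ≤ X := by exact_mod_cast hBX
    have hCr : (CC x.1 L : ℝ) ≤ 1729 * X := by exact_mod_cast hCX
    have hAa : (AA x.1 L : ℝ) ≤ 2 * a := by exact_mod_cast a2.le
    have hBb : (BB x.1 : ℝ) ≤ 2 * b := by exact_mod_cast b2.le
    have hCc : (CC x.1 L : ℝ) ≤ 2 * c := by exact_mod_cast c2.le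
    have hX2 : (0 : ℝ) < (X : ℝ) ^ 2 := by positivity
    have hMa : (X : ℝ) ≤ M * a := by
      have h2 : (AA x.1 L : ℝ) * BB x.1 * CC x.1 L ≤ (2 * a) * X * (1729 * X) := by gcongr
      have h3 : (X : ℝ) ^ 3 < T ^ 12 * (Λ * ((2 * a) * X * (1729 * X))) :=
        hN.trans_le (by gcongr)
      have h4 : (X : ℝ) * X ^ 2 ≤ (M * a) * X ^ 2 := by
        rw [hM]
        linarith
      exact le_of_mul_le_mul_right h4 hX2
    have hMb : (X : ℝ) ≤ M * b := by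
      have h2 : (AA x.1 L : ℝ) * BB x.1 * CC x.1 L ≤ X * (2 * b) * (1729 * X) := by gcongr
      have h3 : (X : ℝ) ^ 3 < T ^ 12 * (Λ * (X * (2 * b) * (1729 * X))) :=
        hN.trans_le (by gcongr)
      have h4 : (X : ℝ) * X ^ 2 ≤ (M * b) * X ^ 2 := by
        rw [hM]
        linarith
      exact le_of_mul_le_mul_right h4 hX2
    have hMc : 1729 * (X : ℝ) ≤ M * c := by
      have h2 : (AA x.1 L : ℝ) * BB x.1 * CC x.1 L ≤ X * X * (2 * c) := by gcongr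
      have h3 : (X : ℝ) ^ 3 < T ^ 12 * (Λ * (X * X * (2 * c))) :=
        hN.trans_le (by gcongr)
      have h4 : (1729 * (X : ℝ)) * X ^ 2 ≤ (M * c) * X ^ 2 := by
        rw [hM]
        linarith
      exact le_of_mul_le_mul_right h4 hX2
    have ha1 : 1 < a := by
      by_contra hcon
      have ha1 : a = 1 := by omega
      have h5 : (a : ℝ) = 1 := by exact_mod_cast ha1
      rw [h5, mul_one] at hMa
      exact absurd hMa (not_le.2 hbig)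
    exact hbox Z E M hU L k X Y a b c (2 ^ i.1.2.2.2.2.1) (2 ^ i.1.2.2.2.2.2) (2 ^ i.2.1)
      (2 ^ i.2.2.1) (2 ^ i.2.2.2.1) (2 ^ i.2.2.2.2) (by omega) (Dvd.intro _ rfl) (by omega) hX hXY hYZ hk
      (by nlinarith) Nat.one_le_two_pow Nat.one_le_two_pow ha hb hc Nat.one_le_two_pow
      Nat.one_le_two_pow Nat.one_le_two_pow Nat.one_le_two_pow hM1 hMa hMb hMc S
      (fun y hy => by
        obtain ⟨hyG, y1, y2, y3, y4, y5, y6⟩ := Finset.mem_filter.1 hy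
        have y1' : PB L k X Y a b c (2 ^ i.1.2.2.2.2.1) (2 ^ i.1.2.2.2.2.2) y := y1
        exact ⟨y1', lt_of_lt_of_le ha1 y1'.j.ha.1, y3, y4, y5, y6, hGs y hyG⟩)
  · rw [card_JJ]
    push_cast
    ring

end Pool.Agent.H23.QQ
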